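import Pool.Agent.H22.GQ.Stmt

set_option autoImplicit false

open Module TensorProduct H22GQ

namespace Pool.Agent.Results.MP_38a269_al.FormStabilizer

/-- Let `k` be a perfect field of characteristic 2, `G` a finite 2-group and `V` a representation of odd
dimension such that `V ⊗ V*` is the sum of `k` and a negligible representation (`IsInv`; so `V` is an
invertible object of the semisimplification) and some tensor power of `V` of positive degree has a trivial
direct summand (`HasTriv`; so that `V` has finite order). Let `Y` be any representation and `s` a permutation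
of the `m` factors of `V^{⊗ m}` with `s² = 1`. If `k` is a direct summand of `V^{⊗ m} ⊗ Y` through an invariant
linear form `t` and an invariant vector `w` with `t w ≠ 0`, and `s` fixes `t` or fixes `w` (`HasTrivFix`), then
`V^{⊗ j}` has a trivial direct summand, where `j` is the number of 2-cycles of `s`. -/
theorem result {k G V Y : Type*} [Field k] [CharP k 2] [PerfectRing k 2] [Group G] [Finite G]
    (hG : IsPGroup 2 G) [AddCommGroup V] [Module k V] [FiniteDimensional k V]
    (ρ : Representation k G V) (hodd : Odd (finrank k V)) (hI : IsInv ρ)
    (hr : ∃ r, 1 ≤ r ∧ HasTriv (tp ρ r))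
    [AddCommGroup Y] [Module k Y] (η : Representation k G Y) (m : ℕ)
    (s : Equiv.Perm (Fin m)) (hs : s * s = 1) (h : HasTrivFix ((tp ρ m).tprod η) (fx s)) :
    HasTriv (tp ρ (twoCycles s)) := by
  obtain ⟨r, hr, hrt⟩ := hr
  obtain ⟨t, w, ht, hw, htw, hfix⟩ := h
  have hs' : ∀ i, s (s i) = i := fun i => by
    rw [← Equiv.Perm.mul_apply, hs]
    rfl
  rcases hfix with h | h
  · exact invol_case hG hodd hI hr hrt t ht w hw htw s (fixes_of h) hs'
  · exact invol_case' hG hodd hI hr hrt t ht w hw htw s h hs'

end Pool.Agent.Results.MP_38a269_al.FormStabilizer
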