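import Pool.Agent.H22.GQ.Stmt2

set_option autoImplicit false

open Module TensorProduct H22GQ

namespace Pool.Agent.Results.MP_38a269_al.TwoSidedInvolution

/-- Let `k` be an algebraically closed field of characteristic 2, `G` a finite 2-group, `V` any
finite-dimensional representation and `Y` any representation. Let `s` be a permutation of the `m` factors of
`V^{⊗ m}` with `s² = 1`. If `k` is a direct summand of `V^{⊗ m} ⊗ Y` through an invariant linear form `t` and an
invariant vector `w` with `t w ≠ 0`, both of which are fixed by `s` (`HasTrivBoth`), then `V^{⊗ j}` has a trivial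
direct summand (`HasTriv`), where `j` is the number of 2-cycles of `s`. -/
theorem result {k G V Y : Type*} [Field k] [IsAlgClosed k] [CharP k 2] [Group G] [Finite G]
    (hG : IsPGroup 2 G) [AddCommGroup V] [Module k V] [FiniteDimensional k V]
    (ρ : Representation k G V) [AddCommGroup Y] [Module k Y] (η : Representation k G Y) (m : ℕ)
    (s : Equiv.Perm (Fin m)) (hs : s * s = 1) (h : HasTrivBoth ((tp ρ m).tprod η) (fx s)) :
    HasTriv (tp ρ (twoCycles s)) :=
  two_sided' hG ρ η m s hs h

end Pool.Agent.Results.MP_38a269_al.TwoSidedInvolution
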